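import Pool.Agent.H684R3.USS.Stmts

set_option autoImplicit false

/-! # Task G of the project H684-USS: the set `S` has density one. -/

namespace Pool.Agent.H884R3.USS

open Polynomial Finset Pool.Agent.H692R2.USS Pool.Agent.H684R3.USS
open scoped Classical

theorem goodPair_congr {i k p n n' b : ℕ} (h : n ≡ n' [MOD i.factorial]) (hp : p ≤ i)
    (hg : GoodPair k p n b) : GoodPair k p n' b := by
  obtain ⟨h1, h2, h3, h4, h5⟩ := hg
  have hp2 := h1.two_le
  have hd1 : p - 1 ∣ i.factorial := Nat.dvd_factorial (by omega) (by omega)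
  have hd2 : p ∣ i.factorial := Nat.dvd_factorial (by omega) hp
  refine ⟨h1, h2, h3, h4.trans (h.of_dvd hd1), ?_⟩
  intro f hf0 hfd hfc hdv
  refine h5 f hf0 hfd hfc ?_
  have h6 : (p : ℤ) ∣ (n' : ℤ) - n := (Nat.modEq_iff_dvd).1 (h.of_dvd hd2)
  have h7 : (n' : ℤ) - n ∣ f.eval (n' : ℤ) - f.eval (n : ℤ) := Polynomial.sub_dvd_eval_sub _ _ _
  have h8 := h6.trans h7
  have h9 : f.eval (n : ℤ) = f.eval (n' : ℤ) - (f.eval (n' : ℤ) - f.eval (n : ℤ)) := by ring
  rw [h9]
  exact dvd_sub hdv h8

theorem good_congr {i k n n' : ℕ} (h : n ≡ n' [MOD i.factorial]) : Good i k n ↔ Good i k n' := by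
  constructor
  · rintro ⟨B, hB, hb⟩
    exact ⟨B, hB, fun b hbB => by
      obtain ⟨p, hp, hg⟩ := hb b hbB
      exact ⟨p, hp, goodPair_congr h hp hg⟩⟩
  · rintro ⟨B, hB, hb⟩
    exact ⟨B, hB, fun b hbB => by
      obtain ⟨p, hp, hg⟩ := hb b hbB
      exact ⟨p, hp, goodPair_congr h.symm hp hg⟩⟩

theorem period_mul (P : ℕ → Prop) (Q : ℕ) (hP : ∀ n n', n ≡ n' [MOD Q] → (P n ↔ P n')) (m : ℕ) :
    Nat.count P (m * Q) = m * Nat.count P Q := by
  induction m with
  | zero => simp
  | succ m ih =>
    rw [Nat.add_mul, one_mul, Nat.count_add, ih, Nat.add_mul, one_mul]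
    congr 1
    have : (fun k => P (m * Q + k)) = P := by
      funext k
      have h1 : m * Q + k ≡ k [MOD Q] := by
        unfold Nat.ModEq
        simp [Nat.add_mod]
      exact propext (hP _ _ h1)
    simp only [this]

theorem period_count (P : ℕ → Prop) (Q : ℕ) (hQ : 0 < Q)
    (hP : ∀ n n', n ≡ n' [MOD Q] → (P n ↔ P n')) (b : ℕ) :
    Nat.count P b ≤ (b / Q + 1) * Nat.count P Q := by
  rw [← period_mul P Q hP]
  refine Nat.count_monotone P ?_
  have := Nat.lt_div_mul_add (a := b) hQ
  rw [Nat.add_mul, one_mul]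
  exact this.le

/-- bad numbers of level `K` -/
def Bad (K n : ℕ) : Prop := ¬ Good (iSeq K) K n

theorem iSeq_spec (hG : GoodDensity) (K : ℕ) :
    (K + 1) * Nat.count (Bad K) (iSeq K).factorial ≤ (iSeq K).factorial := by
  have hne : {i | (K + 1) * ((Finset.range i.factorial).filter (fun n => ¬ Good i K n)).card ≤
      i.factorial}.Nonempty := by
    obtain ⟨i0, hi⟩ := hG K (1 / (K + 1)) (by positivity)
    refine ⟨i0, ?_⟩
    have h1 := hi i0 le_rfl
    have h2 : ((K : ℝ) + 1) * (((Finset.range i0.factorial).filter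
        (fun n => ¬ Good i0 K n)).card : ℝ) ≤ i0.factorial := by
      have h3 : (0 : ℝ) < (K : ℝ) + 1 := by positivity
      calc _ ≤ ((K : ℝ) + 1) * (1 / (K + 1) * i0.factorial) :=
            mul_le_mul_of_nonneg_left h1 h3.le
        _ = _ := by field_simp
    show (K + 1) * ((Finset.range i0.factorial).filter (fun n => ¬ Good i0 K n)).card ≤
      i0.factorial
    exact_mod_cast h2
  have h4 := Nat.sInf_mem hne
  have h5 : (K + 1) * ((Finset.range (iSeq K).factorial).filter
      (fun n => ¬ Good (iSeq K) K n)).card ≤ (iSeq K).factorial := h4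
  rw [Nat.count_eq_card_filter_range]
  have h6 : (range (iSeq K).factorial).filter (Bad K) =
      (range (iSeq K).factorial).filter (fun n => ¬ Good (iSeq K) K n) :=
    Finset.filter_congr fun n _ => Iff.rfl
  rw [h6]
  exact h5

theorem bad_count (hG : GoodDensity) (K N : ℕ) :
    (K + 1) * Nat.count (Bad K) N ≤ N + (iSeq K).factorial := by
  set Q := (iSeq K).factorial with hQdef
  have hQ : 0 < Q := Nat.factorial_pos _
  have h1 := period_count (Bad K) Q hQ (fun n n' h => not_congr (good_congr h)) N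
  have h2 := iSeq_spec hG K
  calc (K + 1) * Nat.count (Bad K) N ≤ (K + 1) * ((N / Q + 1) * Nat.count (Bad K) Q) :=
        Nat.mul_le_mul_left _ h1
    _ = (N / Q + 1) * ((K + 1) * Nat.count (Bad K) Q) := by ring
    _ ≤ (N / Q + 1) * Q := Nat.mul_le_mul_left _ h2
    _ = N / Q * Q + Q := by ring
    _ ≤ N + Q := Nat.add_le_add_right (Nat.div_mul_le_self _ _) _

theorem NSeq_succ (k : ℕ) : NSeq (k + 1) =
    (k + 1) * (NSeq k + (iSeq k).factorial + (iSeq (k + 1)).factorial + 1) := rfl

theorem NSeq_mono : StrictMono NSeq := by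
  refine strictMono_nat_of_lt_succ fun k => ?_
  rw [NSeq_succ]
  nlinarith [Nat.zero_le (NSeq k), Nat.zero_le (iSeq k).factorial,
    Nat.zero_le (iSeq (k + 1)).factorial,
    Nat.zero_le (k * (NSeq k + (iSeq k).factorial + (iSeq (k + 1)).factorial + 1))]

theorem le_lev {k n : ℕ} (h : NSeq k ≤ n) : k ≤ lev n :=
  Nat.le_findGreatest (NSeq_mono.le_apply.trans h) h

theorem NSeq_lev (n : ℕ) : NSeq (lev n) ≤ n :=
  Nat.findGreatest_spec (P := fun k => NSeq k ≤ n) (Nat.zero_le n) (Nat.zero_le n)

theorem lev_eq {k n : ℕ} (h : NSeq k ≤ n) (h' : n < NSeq (k + 1)) : lev n = k := by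
  refine le_antisymm ?_ (le_lev h)
  have := NSeq_mono.lt_iff_lt.1 ((NSeq_lev n).trans_lt h')
  omega

theorem count_main (hG : GoodDensity) (j N : ℕ) (h : NSeq (j + 1) ≤ N) (h' : N < NSeq (j + 2)) :
    (j + 1) * ((range N).filter (fun n => n ∉ S)).card ≤ 3 * N := by
  have hsub : (range N).filter (fun n => n ∉ S) ⊆
      range (NSeq j) ∪ ((range N).filter (Bad j) ∪ (range N).filter (Bad (j + 1))) := by
    intro n hn
    rw [mem_filter, mem_range] at hn
    obtain ⟨hnN, hnS⟩ := hn
    simp only [mem_union, mem_range, mem_filter]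
    by_cases h1 : n < NSeq j
    · exact Or.inl h1
    · right
      by_cases h2 : n < NSeq (j + 1)
      · left
        have h3 := lev_eq (not_lt.1 h1) h2
        refine ⟨hnN, fun hg => hnS ?_⟩
        show Good (iSeq (lev n)) (lev n) n
        rw [h3]
        exact hg
      · right
        have h3 := lev_eq (not_lt.1 h2) (hnN.trans h')
        refine ⟨hnN, fun hg => hnS ?_⟩
        show Good (iSeq (lev n)) (lev n) n
        rw [h3]
        exact hg
  have hc := (card_le_card hsub).trans ((card_union_le _ _).trans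
    (Nat.add_le_add_left (card_union_le _ _) _))
  have e1 : ((range N).filter (Bad j)).card = Nat.count (Bad j) N :=
    (Nat.count_eq_card_filter_range _ _).symm
  have e2 : ((range N).filter (Bad (j + 1))).card = Nat.count (Bad (j + 1)) N :=
    (Nat.count_eq_card_filter_range _ _).symm
  rw [card_range, e1, e2] at hc
  have b1 := bad_count hG j N
  have b2 := bad_count hG (j + 1) N
  have b3 : (j + 1) * Nat.count (Bad (j + 1)) N ≤ (j + 1 + 1) * Nat.count (Bad (j + 1)) N :=
    Nat.mul_le_mul_right _ (by omega)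
  have h4 : (j + 1) * NSeq j + (iSeq j).factorial + (iSeq (j + 1)).factorial ≤ NSeq (j + 1) := by
    rw [NSeq_succ]
    nlinarith [Nat.zero_le (j * (iSeq j).factorial), Nat.zero_le (j * (iSeq (j + 1)).factorial)]
  calc (j + 1) * ((range N).filter (fun n => n ∉ S)).card
      ≤ (j + 1) * (NSeq j + (Nat.count (Bad j) N + Nat.count (Bad (j + 1)) N)) :=
        Nat.mul_le_mul_left _ hc
    _ = (j + 1) * NSeq j + ((j + 1) * Nat.count (Bad j) N +
          (j + 1) * Nat.count (Bad (j + 1)) N) := by ring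
    _ ≤ 3 * N := by omega

theorem tendsto_lev : Filter.Tendsto (fun N => (lev N : ℝ)) Filter.atTop Filter.atTop := by
  refine tendsto_natCast_atTop_atTop.comp (Filter.tendsto_atTop.2 fun k => ?_)
  exact (Filter.eventually_ge_atTop (NSeq k)).mono fun n hn => le_lev hn

theorem taskG : TaskG := by
  intro hG
  have h1 : Filter.Tendsto (fun N : ℕ => 1 - 3 / (lev N : ℝ)) Filter.atTop (nhds 1) := by
    have := (tendsto_const_nhds (x := (3 : ℝ))).div_atTop tendsto_lev
    simpa using (tendsto_const_nhds (x := (1 : ℝ))).sub this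
  refine tendsto_of_tendsto_of_tendsto_of_le_of_le' h1 tendsto_const_nhds ?_ ?_
  · filter_upwards [Filter.eventually_ge_atTop (NSeq 1), Filter.eventually_ge_atTop 1] with N hN hN1
    have hl : 1 ≤ lev N := le_lev hN
    obtain ⟨j, hj⟩ : ∃ j, lev N = j + 1 := ⟨lev N - 1, by omega⟩
    have hlo : NSeq (j + 1) ≤ N := hj ▸ NSeq_lev N
    have hhi : N < NSeq (j + 2) := by
      by_contra hcon
      have := le_lev (not_lt.1 hcon)
      omega
    have h2 := count_main hG j N hlo hhi
    have h3 : ((range N).filter (fun n => n ∈ S)).card + ((range N).filter (fun n => n ∉ S)).card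
        = N := by
      have := Finset.card_filter_add_card_filter_not (s := range N) (fun n => n ∈ S)
      rw [card_range] at this
      exact this
    have hNpos : (0 : ℝ) < N := by exact_mod_cast hN1
    rw [hj, le_div_iff₀ hNpos]
    have h4 : ((j : ℝ) + 1) * (((range N).filter (fun n => n ∉ S)).card : ℝ) ≤ 3 * N := by
      exact_mod_cast h2
    have h5 : (((range N).filter (fun n => n ∈ S)).card : ℝ) +
        (((range N).filter (fun n => n ∉ S)).card : ℝ) = N := by exact_mod_cast h3
    have hj0 : (0 : ℝ) < (j : ℝ) + 1 := by positivity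
    have h6 : (((range N).filter (fun n => n ∉ S)).card : ℝ) ≤ 3 / ((j : ℝ) + 1) * N := by
      rw [div_mul_eq_mul_div, le_div_iff₀ hj0]
      linarith
    push_cast
    linarith
  · filter_upwards [Filter.eventually_ge_atTop 1] with N hN1
    have hNpos : (0 : ℝ) < N := by exact_mod_cast hN1
    rw [div_le_one hNpos]
    have : ((range N).filter (fun n => n ∈ S)).card ≤ N := by
      have := card_filter_le (range N) (fun n => n ∈ S)
      rwa [card_range] at this
    exact_mod_cast this

end Pool.Agent.H884R3.USS
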